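import Pool.Agent.E8helper29.Zn.Stm2

/-!
# Project ZN2, piece 24: facts on `phi`
-/

set_option autoImplicit false

namespace Pool.Agent.E8helper71.Zn

open MeasureTheory ProbabilityTheory Pool.Agent.Helper649.Zono Polynomial
open Pool.Agent.E8helper29.Zn
open scoped Nat NNReal Topology

lemma abs_int (A : ℝ) : Integrable (fun x : ℝ => |A + x| * x) (gaussianReal 0 1) := by
  have h1 := poly_integrable_pow 1 1
  have h2 := poly_integrable_pow 2 1
  have h3 : Integrable (fun x : ℝ => |A| * |x ^ 1| + x ^ 2) (gaussianReal 0 1) :=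
    (h1.abs.const_mul _).add h2
  refine h3.mono' (by fun_prop) (Filter.Eventually.of_forall fun x => ?_)
  rw [Real.norm_eq_abs, abs_mul, abs_abs, pow_one]
  have h4 := abs_add_le A x
  have h5 : x ^ 2 = |x| * |x| := by rw [← sq, sq_abs]
  rw [h5]
  nlinarith [abs_nonneg x]

lemma mean_one : ∫ x : ℝ, x ∂(gaussianReal 0 1) = 0 := by
  have h := stein 1
  simpa using h

lemma mean_sq : ∫ x : ℝ, x * x ∂(gaussianReal 0 1) = 1 := by
  have h := stein X
  simpa using h

/-- `|phi| ≤ 1` -/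
lemma phi_le (A : ℝ) : |phi A| ≤ 1 := by
  have i1 : Integrable (fun x : ℝ => x) (gaussianReal 0 1) := by
    simpa using poly_integrable_pow 1 1
  have i2 : Integrable (fun x : ℝ => x * x) (gaussianReal 0 1) := by
    have := poly_integrable_pow 2 1
    simpa only [sq] using this
  have e : phi A = ∫ x, (|A + x| * x - |A| * x) ∂(gaussianReal 0 1) := by
    rw [integral_sub (abs_int A) (i1.const_mul _), integral_const_mul, mean_one, mul_zero, sub_zero]
    rfl
  rw [e, ← mean_sq]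
  refine abs_integral_le_integral_abs.trans ?_
  refine integral_mono ((abs_int A).sub (i1.const_mul _)).abs i2 fun x => ?_
  have h1 : |A + x| * x - |A| * x = (|A + x| - |A|) * x := by ring
  simp only [h1, abs_mul]
  have h2 : |(|A + x| - |A|)| ≤ |x| := by
    have := abs_abs_sub_abs_le_abs_sub (A + x) A
    rwa [add_sub_cancel_left] at this
  calc |(|A + x| - |A|)| * |x| ≤ |x| * |x| := mul_le_mul_of_nonneg_right h2 (abs_nonneg _)
    _ = x * x := abs_mul_abs_self x

/-- the sign -/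
noncomputable def sn (a x : ℝ) : ℝ := if a < x then 1 else -1

lemma xw_int : Integrable (fun x : ℝ => x * gaussianPDFReal 0 1 x) := by
  refine (stein_int X).congr (Filter.Eventually.of_forall fun x => ?_)
  simp only [eval_X]
  ring

lemma w_int : Integrable (gaussianPDFReal 0 1) := by
  refine (stein_int 1).congr (Filter.Eventually.of_forall fun x => ?_)
  simp

lemma w_even (x : ℝ) : gaussianPDFReal 0 1 (-x) = gaussianPDFReal 0 1 x := by
  unfold gaussianPDFReal
  simp

lemma sn_val (A : ℝ) : ∫ x, sn (-A) x * x ∂(gaussianReal 0 1) = 2 * gaussianPDFReal 0 1 A := by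
  rw [integral_gaussianReal_eq_integral_smul one_ne_zero]
  have hx := xw_int
  have hw := w_int
  have hd : ∀ x, HasDerivAt (gaussianPDFReal 0 1) (-(x * gaussianPDFReal 0 1 x)) x := stein_deriv
  have hn : ∀ x, HasDerivAt (fun x => -gaussianPDFReal 0 1 x) (x * gaussianPDFReal 0 1 x) x := by
    intro x
    exact (hd x).neg.congr_deriv (neg_neg _)
  have e1 : ∫ x in Set.Ioi (-A), gaussianPDFReal 0 1 x • (sn (-A) x * x) =
      gaussianPDFReal 0 1 A := by
    have h1 : ∫ x in Set.Ioi (-A), gaussianPDFReal 0 1 x • (sn (-A) x * x) =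
        ∫ x in Set.Ioi (-A), x * gaussianPDFReal 0 1 x := by
      refine setIntegral_congr_fun measurableSet_Ioi fun x hx => ?_
      have h2 : sn (-A) x = 1 := if_pos hx
      simp only [h2, smul_eq_mul]
      ring
    rw [h1, integral_Ioi_of_hasDerivAt_of_tendsto' (f := fun x => -gaussianPDFReal 0 1 x) (m := 0)
      (fun x _ => hn x) hx.integrableOn
      (tendsto_zero_of_hasDerivAt_of_integrableOn_Ioi (a := 0) (fun x _ => hn x)
        hx.integrableOn hw.neg.integrableOn), w_even]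
    ring
  have e2 : ∫ x in Set.Iic (-A), gaussianPDFReal 0 1 x • (sn (-A) x * x) =
      gaussianPDFReal 0 1 A := by
    have h1 : ∫ x in Set.Iic (-A), gaussianPDFReal 0 1 x • (sn (-A) x * x) =
        ∫ x in Set.Iic (-A), -(x * gaussianPDFReal 0 1 x) := by
      refine setIntegral_congr_fun measurableSet_Iic fun x hx => ?_
      have h2 : sn (-A) x = -1 := if_neg (not_lt.2 hx)
      simp only [h2, smul_eq_mul]
      ring
    rw [h1, integral_Iic_of_hasDerivAt_of_tendsto' (f := gaussianPDFReal 0 1) (m := 0)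
      (fun x _ => hd x) hx.neg.integrableOn
      (tendsto_zero_of_hasDerivAt_of_integrableOn_Iic (a := 0) (fun x _ => hd x)
        hx.neg.integrableOn hw.integrableOn), w_even, sub_zero]
  have hI : Integrable (fun x => gaussianPDFReal 0 1 x • (sn (-A) x * x)) := by
    refine hx.mono ?_ (Filter.Eventually.of_forall fun x => ?_)
    · refine AEStronglyMeasurable.smul (measurable_gaussianPDFReal 0 1).aestronglyMeasurable ?_
      refine AEStronglyMeasurable.mul ?_ aestronglyMeasurable_id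
      exact (Measurable.ite measurableSet_Ioi measurable_const measurable_const).aestronglyMeasurable
    · rw [smul_eq_mul, norm_mul, norm_mul, norm_mul]
      have h2 : ‖sn (-A) x‖ = 1 := by
        unfold sn
        split_ifs <;> simp
      rw [h2, one_mul, mul_comm]
  rw [← intervalIntegral.integral_Iic_add_Ioi hI.integrableOn hI.integrableOn, e1, e2]
  ring

lemma abs_deriv {A x : ℝ} (h : x ≠ -A) :
    HasDerivAt (fun A : ℝ => |A + x| * x) (sn (-A) x * x) A := by
  refine HasDerivAt.mul_const ?_ x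
  rcases lt_or_gt_of_ne h with h1 | h1
  · have h2 : sn (-A) x = -1 := if_neg (by linarith)
    rw [h2]
    have h3 : HasDerivAt (fun A : ℝ => -(A + x)) (-1) A := ((hasDerivAt_id A).add_const x).neg
    refine h3.congr_of_eventuallyEq ?_
    filter_upwards [gt_mem_nhds (show A < -x by linarith)] with B hB
    exact abs_of_neg (by linarith)
  · have h2 : sn (-A) x = 1 := if_pos h1
    rw [h2]
    have h3 : HasDerivAt (fun A : ℝ => A + x) 1 A := (hasDerivAt_id A).add_const x
    refine h3.congr_of_eventuallyEq ?_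
    filter_upwards [lt_mem_nhds (show -x < A by linarith)] with B hB
    exact abs_of_pos (by linarith)

/-- the derivative of `phi` -/
lemma phi_deriv (A : ℝ) : HasDerivAt phi (2 * gaussianPDFReal 0 1 A) A := by
  have hna : ∀ᵐ x : ℝ ∂(gaussianReal 0 1), x ≠ -A := by
    have := noAtoms_gaussianReal (μ := 0) (v := 1) one_ne_zero
    have h1 : (gaussianReal 0 1) {-A} = 0 := measure_singleton _
    exact measure_eq_zero_iff_ae_notMem.1 h1
  have h := hasDerivAt_integral_of_dominated_loc_of_lip (μ := gaussianReal 0 1) (x₀ := A)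
    (F := fun (A x : ℝ) => |A + x| * x) (F' := fun x => sn (-A) x * x) (s := Set.univ)
    (bound := fun x => |x|) Filter.univ_mem
    (Filter.Eventually.of_forall fun B => (abs_int B).aestronglyMeasurable) (abs_int A)
    (by
      refine AEStronglyMeasurable.mul ?_ aestronglyMeasurable_id
      exact (Measurable.ite measurableSet_Ioi measurable_const measurable_const).aestronglyMeasurable)
    (Filter.Eventually.of_forall fun x => by
      refine LipschitzOnWith.of_dist_le_mul fun a _ b _ => ?_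
      rw [Real.dist_eq, Real.dist_eq, ← sub_mul, abs_mul, mul_comm]
      have h1 : ((Real.nnabs |x| : ℝ≥0) : ℝ) = |x| := by
        rw [Real.coe_nnabs, abs_abs]
      rw [h1]
      refine mul_le_mul_of_nonneg_left ?_ (abs_nonneg _)
      have h2 := abs_abs_sub_abs_le_abs_sub (a + x) (b + x)
      rwa [add_sub_add_right_eq_sub] at h2)
    (by simpa using (poly_integrable_pow 1 1).abs)
    (hna.mono fun x hx => abs_deriv hx)
  rw [sn_val] at h
  exact h.2

lemma pdf_eq (x : ℝ) : gaussianPDFReal 0 1 x =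
    (Real.sqrt (2 * Real.pi))⁻¹ * Real.exp (-(1/2) * x ^ 2) := by
  unfold gaussianPDFReal
  rw [sub_zero, NNReal.coe_one, mul_one, mul_one]
  congr 2
  ring

/-- the coefficient -/
lemma coef (j : ℕ) (g : ℝ) (hg : 0 < g) :
    (∫ a, phi (a / g) * He (2 * j + 1) a ∂(gaussianReal 0 1)) ^ 2 =
      2 / Real.pi * ((1 + g ^ 2)⁻¹) ^ (2 * j + 1) * (((2 * j - 1)‼ : ℕ) : ℝ) ^ 2 := by
  have hpi := Real.pi_pos
  have hg2 : 0 < 1 + g ^ 2 := by positivity
  -- integration by parts
  have hHe : ∀ (n : ℕ) (x : ℝ), He n x = (HP n).eval x := fun _ _ => rfl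
  have hcp : Continuous phi := continuous_iff_continuousAt.2 fun A => (phi_deriv A).continuousAt
  have hv : ∀ x, HasDerivAt (fun x => He (2 * j) x * gaussianPDFReal 0 1 x)
      (-(He (2 * j + 1) x * gaussianPDFReal 0 1 x)) x := by
    intro x
    have h1 := (alpha_val_deriv (2 * j) x).const_mul (Real.sqrt (2 * Real.pi))⁻¹
    have h2 : (fun x => He (2 * j) x * gaussianPDFReal 0 1 x) = fun y =>
        (Real.sqrt (2 * Real.pi))⁻¹ * (He (2 * j) y * Real.exp (-(1/2) * y ^ 2)) := by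
      funext y
      rw [pdf_eq]
      ring
    rw [h2]
    refine h1.congr_deriv ?_
    rw [pdf_eq]
    ring
  have hu : ∀ x, HasDerivAt (fun x => phi (x / g)) (2 * gaussianPDFReal 0 1 (x / g) * (1 / g)) x := by
    intro x
    have h1 := (phi_deriv (x / g)).comp x ((hasDerivAt_id x).div_const g)
    exact h1
  have iH : ∀ n : ℕ, Integrable (fun x => He n x * gaussianPDFReal 0 1 x) := by
    intro n
    refine (stein_int (HP n)).congr (Filter.Eventually.of_forall fun x => ?_)
    simp only [hHe]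
    ring
  have hb1 : ∀ x, ‖phi (x / g)‖ ≤ 1 := fun x => phi_le _
  have hm1 : AEStronglyMeasurable (fun x => phi (x / g)) (volume : Measure ℝ) :=
    (hcp.comp (continuous_id.div_const g)).aestronglyMeasurable
  have hwle : ∀ x, gaussianPDFReal 0 1 x ≤ 1 := by
    intro x
    rw [pdf_eq]
    have h1 : (Real.sqrt (2 * Real.pi))⁻¹ ≤ 1 := by
      apply inv_le_one_of_one_le₀
      rw [Real.one_le_sqrt]
      have := Real.pi_gt_three
      linarith
    have h2 : Real.exp (-(1/2) * x ^ 2) ≤ 1 := by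
      rw [Real.exp_le_one_iff]
      nlinarith [sq_nonneg x]
    exact mul_le_one₀ h1 (Real.exp_pos _).le h2
  have hIBP := integral_mul_deriv_eq_deriv_mul_of_integrable
    (u := fun x => phi (x / g)) (u' := fun x => 2 * gaussianPDFReal 0 1 (x / g) * (1 / g))
    (v := fun x => He (2 * j) x * gaussianPDFReal 0 1 x)
    (v' := fun x => -(He (2 * j + 1) x * gaussianPDFReal 0 1 x))
    (fun x _ => hu x) (fun x _ => hv x)
    ((iH _).neg.bdd_mul hm1 (Filter.Eventually.of_forall hb1))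
    (by
      refine (iH (2 * j)).bdd_mul (c := 2 * 1 * (1 / g)) ?_ (Filter.Eventually.of_forall fun x => ?_)
      · refine AEStronglyMeasurable.mul_const (AEStronglyMeasurable.const_mul ?_ _) _
        exact ((measurable_gaussianPDFReal 0 1).comp (measurable_id.div_const g)).aestronglyMeasurable
      · rw [Real.norm_eq_abs, abs_of_nonneg (by
          have := gaussianPDFReal_nonneg 0 1 (x / g)
          positivity)]
        have := hwle (x / g)
        gcongr)
    ((iH _).bdd_mul hm1 (Filter.Eventually.of_forall hb1))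
  have e1 : ∫ a, phi (a / g) * He (2 * j + 1) a ∂(gaussianReal 0 1) =
      ∫ x, 2 * gaussianPDFReal 0 1 (x / g) * (1 / g) * (He (2 * j) x * gaussianPDFReal 0 1 x) := by
    rw [integral_gaussianReal_eq_integral_smul one_ne_zero]
    have e2 : ∀ x, gaussianPDFReal 0 1 x • (phi (x / g) * He (2 * j + 1) x) =
        -(phi (x / g) * -(He (2 * j + 1) x * gaussianPDFReal 0 1 x)) := by
      intro x
      rw [smul_eq_mul]
      ring
    simp only [e2]
    rw [integral_neg, hIBP, neg_neg]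
  -- the smoothing identity
  obtain ⟨v, hv⟩ : ∃ v : ℝ≥0, (v : ℝ) = g ^ 2 * (1 + g ^ 2)⁻¹ :=
    ⟨⟨g ^ 2 * (1 + g ^ 2)⁻¹, by positivity⟩, rfl⟩
  have hv0 : v ≠ 0 := by
    intro h
    rw [h, NNReal.coe_zero] at hv
    have : 0 < g ^ 2 * (1 + g ^ 2)⁻¹ := by positivity
    linarith
  obtain ⟨ρ, hρ⟩ : ∃ ρ : ℝ, ρ = (Real.sqrt (1 + g ^ 2))⁻¹ := ⟨_, rfl⟩
  have hρ2 : ρ ^ 2 = (1 + g ^ 2)⁻¹ := by
    rw [hρ, inv_pow, Real.sq_sqrt hg2.le]
  have hsm := He_smooth (2 * j) ρ v (by rw [hρ2, hv]; field_simp) 0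
  rw [mul_zero] at hsm
  simp only [zero_add] at hsm
  rw [integral_gaussianReal_eq_integral_smul hv0] at hsm
  have e3 : ∀ x, 2 * gaussianPDFReal 0 1 (x / g) * (1 / g) * (He (2 * j) x * gaussianPDFReal 0 1 x) =
      (1 / (Real.pi * g) * Real.sqrt (2 * Real.pi * v)) * (gaussianPDFReal 0 v x • He (2 * j) x) := by
    intro x
    have hsv : 0 < Real.sqrt (2 * Real.pi * v) := by
      apply Real.sqrt_pos.2
      rw [hv]
      positivity
    have hs2 : 0 < Real.sqrt (2 * Real.pi) := Real.sqrt_pos.2 (by positivity)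
    have hsq : Real.sqrt (2 * Real.pi) * Real.sqrt (2 * Real.pi) = 2 * Real.pi :=
      Real.mul_self_sqrt (by positivity)
    rw [pdf_eq, pdf_eq, smul_eq_mul]
    have e4 : gaussianPDFReal 0 v x = (Real.sqrt (2 * Real.pi * v))⁻¹ *
        (Real.exp (-(1/2) * (x / g) ^ 2) * Real.exp (-(1/2) * x ^ 2)) := by
      unfold gaussianPDFReal
      rw [sub_zero, ← Real.exp_add]
      congr 2
      rw [hv]
      field_simp
      ring
    rw [e4]
    have e5 : (Real.sqrt (2 * Real.pi))⁻¹ * (Real.sqrt (2 * Real.pi))⁻¹ = (2 * Real.pi)⁻¹ := by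
      rw [← mul_inv, hsq]
    calc 2 * ((Real.sqrt (2 * Real.pi))⁻¹ * Real.exp (-(1/2) * (x / g) ^ 2)) * (1 / g) *
          (He (2 * j) x * ((Real.sqrt (2 * Real.pi))⁻¹ * Real.exp (-(1/2) * x ^ 2)))
        = 2 * (1 / g) * ((Real.sqrt (2 * Real.pi))⁻¹ * (Real.sqrt (2 * Real.pi))⁻¹) *
          (Real.exp (-(1/2) * (x / g) ^ 2) * Real.exp (-(1/2) * x ^ 2)) * He (2 * j) x := by ring
      _ = _ := by
        rw [e5]
        field_simp
  rw [e1]
  simp only [e3]
  rw [integral_const_mul, hsm, He_zero, mul_pow, mul_pow, mul_pow, mul_pow,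
    Real.sq_sqrt (by positivity), hv, ← pow_mul, mul_comm (2 * j) 2, pow_mul ρ, hρ2]
  have e6 : (((-1 : ℝ)) ^ j) ^ 2 = 1 := by
    rw [← pow_mul, mul_comm, pow_mul]
    simp
  rw [e6]
  field_simp
  have h9 : (1 + g ^ 2) * (1 / (1 + g ^ 2)) = 1 := by field_simp
  rw [pow_succ]
  calc (1 / (1 + g ^ 2)) ^ (2 * j) = (1 / (1 + g ^ 2)) ^ (2 * j) * ((1 + g ^ 2) * (1 / (1 + g ^ 2))) := by
        rw [h9, mul_one]
    _ = _ := by ring

lemma fact_le (j : ℕ) : (2 * j + 1)! ≤ 4 * (j + 1) ^ 2 * ((2 * j - 1)‼) ^ 2 := by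
  have h1 : (2 * j + 1)! = (2 * j + 1) * ((2 * j - 1)‼ * (2 ^ j * j !)) := by
    rw [Nat.factorial_succ, alpha_bound_fact]
  have h2 : 2 ^ j * j ! ≤ (2 * j + 1) * (2 * j - 1)‼ := by
    have h3 := alpha_bound_P j
    have h4 : (2 ^ j * j !) ^ 2 ≤ ((2 * j + 1) * (2 * j - 1)‼) ^ 2 := by
      refine h3.trans ?_
      rw [mul_pow]
      exact Nat.mul_le_mul_right _ (by nlinarith)
    exact (Nat.pow_le_pow_iff_left (by norm_num)).1 h4
  rw [h1]
  calc (2 * j + 1) * ((2 * j - 1)‼ * (2 ^ j * j !))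
      ≤ (2 * j + 1) * ((2 * j - 1)‼ * ((2 * j + 1) * (2 * j - 1)‼)) := by gcongr
    _ = (2 * j + 1) ^ 2 * ((2 * j - 1)‼) ^ 2 := by ring
    _ ≤ 4 * (j + 1) ^ 2 * ((2 * j - 1)‼) ^ 2 := Nat.mul_le_mul_right _ (by nlinarith)

theorem p24 (_h : Stm1) : Stm24 := by
  refine ⟨continuous_iff_continuousAt.2 fun A => (phi_deriv A).continuousAt, phi_le,
    2 * Real.pi * Real.exp 2, by positivity, ?_⟩
  intro k g hk hg hgk
  obtain ⟨j, rfl⟩ : ∃ j, k = j + 1 := ⟨k - 1, by omega⟩
  have e1 : 2 * (j + 1) - 1 = 2 * j + 1 := by omega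
  rw [e1, coef j g hg]
  have hpi := Real.pi_pos
  have hg2 : 0 < 1 + g ^ 2 := by positivity
  have h1 : (((2 * j + 1)! : ℕ) : ℝ) ≤ 4 * ((j : ℝ) + 1) ^ 2 * (((2 * j - 1)‼ : ℕ) : ℝ) ^ 2 := by
    exact_mod_cast fact_le j
  have h2 : (1 + g ^ 2) ^ (2 * j + 1) ≤ Real.exp 2 := by
    have h3 : 1 + g ^ 2 ≤ Real.exp (g ^ 2) := by
      have := Real.add_one_le_exp (g ^ 2)
      linarith
    calc (1 + g ^ 2) ^ (2 * j + 1) ≤ (Real.exp (g ^ 2)) ^ (2 * j + 1) := by gcongr
      _ = Real.exp (((2 * j + 1 : ℕ) : ℝ) * g ^ 2) := by rw [← Real.exp_nat_mul]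
      _ ≤ Real.exp 2 := by
        rw [Real.exp_le_exp]
        push_cast at hgk ⊢
        nlinarith [sq_nonneg g]
  have h3 : 1 ≤ Real.exp 2 * ((1 + g ^ 2)⁻¹) ^ (2 * j + 1) := by
    rw [inv_pow, ← div_eq_mul_inv, one_le_div (by positivity)]
    exact h2
  refine h1.trans ?_
  push_cast
  have h4 : 2 * Real.pi * Real.exp 2 * ((j : ℝ) + 1) ^ 2 * (2 / Real.pi *
      ((1 + g ^ 2)⁻¹) ^ (2 * j + 1) * (((2 * j - 1)‼ : ℕ) : ℝ) ^ 2) =
      (4 * ((j : ℝ) + 1) ^ 2 * (((2 * j - 1)‼ : ℕ) : ℝ) ^ 2) *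
        (Real.exp 2 * ((1 + g ^ 2)⁻¹) ^ (2 * j + 1)) := by
    field_simp
    ring
  rw [h4]
  exact le_mul_of_one_le_right (by positivity) h3

end Pool.Agent.E8helper71.Zn
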